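import Pool.Agent.helper17.GFG.Defs

/-!
# Project GFG (MP_561ff4_al): the certificates
-/

set_option autoImplicit false

open Finset

namespace Pool.Agent.EXT

open Pool.Agent.EXC

theorem KC0 : ∀ j : Fin 8, Cgr C6 Kc0 [] (lt7 (sx8 j)) := by
  have h2 : Cgr C6 Kc0 [] (lt7 2) := Cgr.com [(lt7 15, true)] [] [(lt7 15, true)] [(lt7 18, true)] (lt7 0) (lt7 1) (lt7 2)
    (by decide +kernel) (by decide +kernel) (by decide +kernel)
  have h0 : Cgr C6 Kc0 [] (lt7 0) := Cgr.act (lt7 2) [] [(lt7 5, true)] (lt7 13) (lt7 0) h2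
    (by decide +kernel) (by decide +kernel)
  have h15 : Cgr C6 Kc0 [] (lt7 15) := by
    refine Cgr.one [] [(lt7 0, true)] (lt7 15) (by decide +kernel) (by decide +kernel) ?_
    intro p hp
    simp only [List.nil_append, List.cons_append, List.append_nil, List.mem_cons, List.not_mem_nil, or_false] at hp
    rw [hp]
    exact h0
  have h7 : Cgr C6 Kc0 [] (lt7 7) := Cgr.act (lt7 15) [] [(lt7 12, true), (lt7 1, true)] (lt7 9) (lt7 7) h15
    (by decide +kernel) (by decide +kernel)
  have h1 : Cgr C6 Kc0 [] (lt7 1) := Cgr.act (lt7 7) [(lt7 15, true), (lt7 1, true)] [] (lt7 18) (lt7 1) h7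
    (by decide +kernel) (by decide +kernel)
  have h18 : Cgr C6 Kc0 [] (lt7 18) := by
    refine Cgr.one [(lt7 15, true), (lt7 1, true)] [] (lt7 18) (by decide +kernel) (by decide +kernel) ?_
    intro p hp
    simp only [List.nil_append, List.cons_append, List.append_nil, List.mem_cons, List.not_mem_nil, or_false] at hp
    rcases hp with hp | hp
    · rw [hp]; exact h15
    · rw [hp]; exact h1
  have h4 : Cgr C6 Kc0 [] (lt7 4) := Cgr.act (lt7 18) [] [(lt7 12, true), (lt7 1, true)] (lt7 9) (lt7 4) h18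
    (by decide +kernel) (by decide +kernel)
  have h5 : Cgr C6 Kc0 [] (lt7 5) := Cgr.add (lt7 0) (lt7 4) (lt7 5) h0 h4 (by decide +kernel)
  have h13 : Cgr C6 Kc0 [] (lt7 13) := by
    refine Cgr.one [] [(lt7 5, true)] (lt7 13) (by decide +kernel) (by decide +kernel) ?_
    intro p hp
    simp only [List.nil_append, List.cons_append, List.append_nil, List.mem_cons, List.not_mem_nil, or_false] at hp
    rw [hp]
    exact h5
  have h3 : Cgr C6 Kc0 [] (lt7 3) := Cgr.act (lt7 4) [] [(lt7 5, true)] (lt7 13) (lt7 3) h4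
    (by decide +kernel) (by decide +kernel)
  have h6 : Cgr C6 Kc0 [] (lt7 6) := Cgr.add (lt7 7) (lt7 13) (lt7 6) h7 h13 (by decide +kernel)
  have h9 : Cgr C6 Kc0 [] (lt7 9) := Cgr.add (lt7 7) (lt7 3) (lt7 9) h7 h3 (by decide +kernel)
  have h12 : Cgr C6 Kc0 [] (lt7 12) := by
    refine Cgr.one [(lt7 9, true)] [(lt7 1, true)] (lt7 12) (by decide +kernel) (by decide +kernel) ?_
    intro p hp
    simp only [List.nil_append, List.cons_append, List.append_nil, List.mem_cons, List.not_mem_nil, or_false] at hp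
    rcases hp with hp | hp
    · rw [hp]; exact h9
    · rw [hp]; exact h1
  intro j
  fin_cases j
  · exact h1
  · exact h13
  · exact h0
  · exact h12
  · exact h3
  · exact h15
  · exact h6
  · exact h18

theorem KC1 : ∀ j : Fin 8, Cgr C6 Kc1 [] (lt7 (sx8 j)) := by
  have h12 : Cgr C6 Kc1 [] (lt7 12) := Cgr.com [(lt7 6, true)] [] [(lt7 15, true)] [] (lt7 1) (lt7 14) (lt7 12)
    (by decide +kernel) (by decide +kernel) (by decide +kernel)
  have h9 : Cgr C6 Kc1 [] (lt7 9) := Cgr.act (lt7 12) [] [(lt7 17, true)] (lt7 10) (lt7 9) h12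
    (by decide +kernel) (by decide +kernel)
  have h3 : Cgr C6 Kc1 [] (lt7 3) := Cgr.act (lt7 9) [(lt7 11, true)] [] (lt7 19) (lt7 3) h9
    (by decide +kernel) (by decide +kernel)
  have h14 : Cgr C6 Kc1 [] (lt7 14) := Cgr.act (lt7 3) [(lt7 10, true)] [] (lt7 17) (lt7 14) h3
    (by decide +kernel) (by decide +kernel)
  have h15 : Cgr C6 Kc1 [] (lt7 15) := by
    refine Cgr.one [] [(lt7 14, true)] (lt7 15) (by decide +kernel) (by decide +kernel) ?_
    intro p hp
    simp only [List.nil_append, List.cons_append, List.append_nil, List.mem_cons, List.not_mem_nil, or_false] at hp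
    rw [hp]
    exact h14
  have h8 : Cgr C6 Kc1 [] (lt7 8) := Cgr.act (lt7 15) [] [(lt7 17, true)] (lt7 10) (lt7 8) h15
    (by decide +kernel) (by decide +kernel)
  have h6 : Cgr C6 Kc1 [] (lt7 6) := Cgr.add (lt7 14) (lt7 8) (lt7 6) h14 h8 (by decide +kernel)
  have h1 : Cgr C6 Kc1 [] (lt7 1) := by
    refine Cgr.one [(lt7 6, true)] [] (lt7 1) (by decide +kernel) (by decide +kernel) ?_
    intro p hp
    simp only [List.nil_append, List.cons_append, List.append_nil, List.mem_cons, List.not_mem_nil, or_false] at hp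
    rw [hp]
    exact h6
  have h0 : Cgr C6 Kc1 [] (lt7 0) := Cgr.act (lt7 8) [(lt7 11, true)] [] (lt7 19) (lt7 0) h8
    (by decide +kernel) (by decide +kernel)
  have h18 : Cgr C6 Kc1 [] (lt7 18) := Cgr.act (lt7 1) [(lt7 11, true)] [] (lt7 19) (lt7 18) h1
    (by decide +kernel) (by decide +kernel)
  have h13 : Cgr C6 Kc1 [] (lt7 13) := Cgr.add (lt7 14) (lt7 0) (lt7 13) h14 h0 (by decide +kernel)
  intro j
  fin_cases j
  · exact h1
  · exact h13
  · exact h0
  · exact h12
  · exact h3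
  · exact h15
  · exact h6
  · exact h18

end Pool.Agent.EXT
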