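import Pool.Agent.helper17.GFG.Defs
import Pool.Agent.helper43.EXG.GXC
import Pool.Agent.helper68.EXG.GCJ
import Pool.Agent.helper14.EXG.GGA

/-!
# Project GFG (MP_561ff4_al): ten conjugates of `x ≠ 1` generate `F₄(q)` and `²E₆(q)`. The rows

Owner: helper17. RULES. Row `XXX`: file `Pool/Agent/<seat>/GFG/XXX.lean`, `import Pool.Agent.helper17.GFG.Spec`, `set_option autoImplicit false`,
`open Finset`, `namespace Pool.Agent.EXT`, `open Pool.Agent.EXC`, theorem line as in the lock note (other rows only as hypotheses `(hXXX : XXX_stmt)`; you may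
drop or add some, also rows of `Pool/Agent/helper17/EXT/Spec.lean`), auxiliary lemmas prefixed `XXX_`. No straight double quotes, no convert / congr!.
Land, note DONE + path, one line to helper17. A doubtful statement: tell me at once.
FREE (theorems): all rows of project EXC as `f_XXX` (`f_XAU`, `f_EXF`, `f_ACT`, `f_COL`, ..; statements in `Pool/Agent/helper17/EXC/Spec.lean`); `hb6`, `g_XG`
(`Pool/Agent/helper32/EXT/Spec7.lean`: `XG C6 α t` is the root element `x_α(t)`, it is in `GE`, its inverse is `XG C6 α (-t)`); `k_GXC` (calculus of the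
`XG`), `k_GCJ` (conjugation), `k_GGA` (groups): statements in `Pool/Agent/helper16/EXG/Spec.lean`; `Pool/Agent/helper17/EXC/Basic.lean` (`ip_add_left`, `sg_add_left`, `sg_sq`, ..).
CONVENTIONS. `K` a field with `τ ∘ τ = id`, a scalar `c` is fixed if `τ c = c`. Long roots `LR` (24, `lt7 k`), short roots `SR` (48). `X_γ(s)` is a `g` with
`IsS τ γ s g` (`g = x_γ(s) x_{πγ}(sn γ τ s)`; determined by `s`, exists by SGR). Primes: `x'_α(t) = XP6 c α t = x_α(t c^ch6(α))`, `X'_γ(r) = X_γ(r c^ch6(γ))`, `c ≠ 0` fixed;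
`ch6` is additive; `ch6 u + ch6 v` is odd for two of the three classes of orthogonal pairs of long roots. `H` is a subgroup of linear maps. Sums over `Fin 6`: `Fin.sum_univ_six`.

PLAN. `y = x(t) t⁻¹ = f_a(1) f_b(1)` (YCF). Four conjugates of `y` generate a group which contains all `x'_β(1)`, `β` long (types `0`, `-1`: certificates `KC0`, `KC1`,
proved in `Cert.lean`; type `-2`: section D). The fifth is `g y g⁻¹`, `g = X'_{γ₁}(1) X'_{γ₂}(1) X'_{γ₃}(t)`, `t` a generator of `K`: this gives all short root elements.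
-/

set_option autoImplicit false

open Finset

namespace Pool.Agent.EXT

open Pool.Agent.EXC

theorem k_GXC : GXC_stmt := GXC
theorem k_GCJ : GCJ_stmt := GCJ
theorem k_GGA : GGA_stmt := GGA

/-! ## A. Scaled long root elements -/

/-- **KXC** (short). `k_GXC` (with `hb6`) for the scaled elements: `c^ch(α) c^ch(β) = c^ch(α+β)` (`zpow_add₀`, `ch6 (α + β) = ch6 α + ch6 β`). Twin of X4C (`Pool/Agent/*/TRG/X4C.lean`). The last two parts: `IsX` from `g_XG`; `k_GXC`. -/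
def KXC_stmt : Prop := ∀ (K : Type) [Field K] (c : K), c ≠ 0 → ∀ α β, ip C6 α α = 2 → ip C6 β β = 2 → ∀ s t : K,
  XP6 c α (s + t) = XP6 c α s * XP6 c α t ∧ XP6 c α (0 : K) = 1 ∧ (0 ≤ ip C6 α β → XP6 c α s * XP6 c β t = XP6 c β t * XP6 c α s) ∧
  (ip C6 α β = -1 → XP6 c α s * XP6 c β t * (XP6 c α s)⁻¹ = XP6 c β t * XP6 c (α + β) (s * t * (sg C6 α β : K))) ∧
  XP6 c α (-s) = (XP6 c α s)⁻¹ ∧ (XP6 (1 : K) α s = XG C6 α s)

/-- **KSN** (medium). uses: KXC. Soundness of the closure `Cgr` with signs. Induction on `Cgr`; `r` is a root (`add_root_iff`), `x'_r(1) ∈ H`; `x'_α(-1) = x'_α(1)⁻¹`, so `x'_α(± 1) ∈ H` is the same.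
In all the products the entries of the form `(·, false)` have an arbitrary parameter and only commute. `com`: `P = p₁ x'_u(ε) p₂`, `Q = q₁ x'_v(ε') q₂` (split the lists of parameters: `List.forall₂_append_left_iff` or so). Every factor of `p₁, p₂` commutes with `Q` (products `≥ 0` with all entries of `Q`), `x'_u(ε)` commutes with `q₁, q₂`;
`x'_u(ε) x'_v(ε') x'_u(ε)⁻¹ = x'_v(ε') z`, `z = x'_w(± 1)`, which commutes with all factors of `P`, `Q`. So `P Q P⁻¹ = Q z`, `z ∈ H`. `act`: the same with `P = x'_r(1)`. `add`: two single elements. `one`: `x'_u(ε) = p₁⁻¹ P p₂⁻¹`, all other factors are in `H`. `yy`: `A = []`. The same proof as row S4N (`Pool/Agent/helper57/TRG/S4N.lean` if it is there) and GSN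
(`Pool/Agent/helper75/EXG/GSN.lean`). -/
def KSN_stmt : Prop := ∀ (K : Type) [Field K] (c : K), c ≠ 0 → ∀ (PL : List (List ((Fin 6 → ℤ) × Bool)))
  (H : Subgroup (Lm C6 K ≃ₗ[K] Lm C6 K)), (∀ P ∈ PL, ∀ p ∈ P, ip C6 p.1 p.1 = 2) → (∀ P ∈ PL, ∃ l, OK6 P l ∧ pq6 c l ∈ H) →
  ∀ r, Cgr C6 PL [] r → ip C6 r r = 2 ∧ XP6 c r (1 : K) ∈ H

/-- **KGN** (short-medium). uses: KXC. From the simple roots of the long `D₄` to all long roots. If `x'_α(1), x'_β(1) ∈ H` and `(α, β) = -1` then `x'_{α+β}(± 1) ∈ H` (KXC), so `x'_{α+β}(1) ∈ H`. The long roots are `lt7 k` (row LST, or `WST`-style check: `LR β → ∃ k, β = lt7 k`; hypothesis hLST, `decide +kernel` over `RL`); the others are sums: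
`lt7 2 = lt7 0 + lt7 1`, `4 = 3 + 1`, `5 = 4 + 0`, `7 = 6 + 1`, `8 = 7 + 0`, `9 = 7 + 3`, `10 = 9 + 0`, `11 = 10 + 1`, and the negatives (`k + 12`); all checks by `decide +kernel`. -/
def KGN_stmt : Prop := ∀ (K : Type) [Field K] (c : K), c ≠ 0 → ∀ H : Subgroup (Lm C6 K ≃ₗ[K] Lm C6 K),
  (∀ j : Fin 8, XP6 c (lt7 (sx8 j)) 1 ∈ H) → ∀ β, LR β → XP6 c β 1 ∈ H

/-! ## B. Conjugates -/

/-- **KPR** (medium). uses: PAR, WST, WPS, TOR, LST. Type `0`. PAR (`β = th`, `δ = sr 3`): `g a = E th`, `g b = κ E (sr 3)`; `c = κ`. WST, WPS for `(th, sr 3)` and `(u, v)`: `g₁ E th = s E u`, `g₁ E (sr 3) = s' E v`, `s, s' = ± 1`. Torus: there are long roots `β₁, β₂` with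
`((u,β₁),(v,β₁)) = (1, 1)`, `((u,β₂),(v,β₂)) = (1, -1)` (`decide +kernel` over `lt7`); `h = h_{β₁}(x) h_{β₂}(y)` (TOR) multiplies `E u` by `x y` and `E v` by `x / y`. We need `x y = c^ch(u)`, `x / y = c^(ch(v) - 1)`: `x = c^((ch u + ch v - 1)/2)`, `y = c^((ch u - ch v + 1)/2)` (integers as `ch u + ch v` is odd).
`g₁ b = κ s' E v`, so `h g₁ g a = s c^ch(u) E u`, `h g₁ g b = s' c^ch(v) E v`. -/
def KPR_stmt : Prop := ∀ (K : Type) [Field K] (τ : K ≃+* K), (∀ x, τ (τ x) = x) → ∀ a b : Lm C6 K, TpS τ a b 0 → ∃ c : K, τ c = c ∧ c ≠ 0 ∧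
  ∀ u v, LR u → LR v → ip C6 u v = 0 → (∃ m : ℤ, ch6 u + ch6 v = 2 * m + 1) → ∃ g ∈ GS τ, ∃ e e' : K, (e = 1 ∨ e = -1) ∧ (e' = 1 ∨ e' = -1) ∧
    g a = (e * c ^ (ch6 u)) • (E C6 u : Lm C6 K) ∧ g b = (e' * c ^ (ch6 v)) • (E C6 v : Lm C6 K)

/-- **KPM** (short-medium). uses: PAR, TOR. Type `-1`. PAR (`β = u`, `δ = v`): `g a = E u`, `g b = κ E v`; a long root `α` with `(u, α) = 0`, `(v, α) = 1` (`decide +kernel` over `lt7`; LST for `LR β → ∃ k, β = lt7 k`), TOR with `t = κ⁻¹`. -/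
def KPM_stmt : Prop := ∀ (K : Type) [Field K] (τ : K ≃+* K), (∀ x, τ (τ x) = x) → ∀ a b : Lm C6 K, TpS τ a b (-1) →
  ∀ u v, LR u → LR v → ip C6 u v = -1 → ∃ g ∈ GS τ, g a = (E C6 u : Lm C6 K) ∧ g b = (E C6 v : Lm C6 K)

/-- **KCJ** (short-medium). uses: GFX, ESF, TFS, SGR. (1) `y = f_a(1) f_b(1)` (`Y7`). GFX: `f_g ∈ GF` induced by `g`; `f_g f_a(1) f_g⁻¹ = f_{g a}(1)` and `xe (s • E u) 1 = xe (E u) s` (`f_XAU`), so `f_g y f_g⁻¹` acts as `x_u(s) x_v(s')` (`g_XG`). (2) `f_h` induced by `h` (GFX, first part); on `LT τ` (stable under `k` and `h⁻¹`: `(f v).2`) `f_h (f y f⁻¹) f_h⁻¹` acts as `h k h⁻¹`.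
(3) the long root elements with fixed parameter are in `GS τ` (SGR, `g_XG`: an element with the same values is equal). -/
def KCJ_stmt : Prop := ∀ (K : Type) [Field K] (τ : K ≃+* K), (∀ x, τ (τ x) = x) →
  (∀ (a b : Lm C6 K) (m : ℤ) (y : GF τ), TpS τ a b m → Y7 τ a b y → ∀ g ∈ GS τ, ∀ u v, LR u → LR v → ∀ s s' : K, τ s = s → τ s' = s' → s ≠ 0 → s' ≠ 0 →
    g a = s • (E C6 u : Lm C6 K) → g b = s' • (E C6 v : Lm C6 K) → CJ τ y (XG C6 u s * XG C6 v s')) ∧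
  (∀ (y : GF τ) (k : Lm C6 K ≃ₗ[K] Lm C6 K), k ∈ GS τ → CJ τ y k → ∀ h ∈ GS τ, CJ τ y (h * k * h⁻¹)) ∧
  ∀ u, LR u → ∀ s : K, τ s = s → XG C6 u s ∈ GS τ

/-- **KRD** (medium). uses: GFX, SGR. From linear maps to the group `GF`. `f i` from `CJ`, `L = closure (range (f i y (f i)⁻¹))`; the set of the `g ∈ GS τ` which induce on `LT τ` an element of `L` is a subgroup of linear maps (`g` maps `LT τ` to itself: SGR, `g` commutes with `σ`; products and inverses of permutations of `LT τ`), it contains all `k i`,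
so by hypothesis it contains `GS τ`. Every element of `GF τ` is induced by some `g ∈ GS τ` (definition), so it is in `L` (a permutation is determined by its values). -/
def KRD_stmt : Prop := ∀ (K : Type) [Field K] (τ : K ≃+* K), (∀ x, τ (τ x) = x) → ∀ (y : GF τ) (k : Fin 5 → Lm C6 K ≃ₗ[K] Lm C6 K),
  (∀ i, k i ∈ GS τ ∧ CJ τ y (k i)) → (∀ H : Subgroup (Lm C6 K ≃ₗ[K] Lm C6 K), (∀ i, k i ∈ H) → GS τ ≤ H) →
  ∃ g : Fin 5 → GF τ, Subgroup.closure (Set.range fun i => g i * y * (g i)⁻¹) = ⊤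

/-! ## C. Short root elements -/

/-- **KSC** (medium). uses: RTF, SGR, SIG. Calculus of the short root elements `X_γ(s) = x_γ(s) x_{πγ}(sn γ τ s)` (`k_GXC` for the four root elements; `IsS` determines the linear map; `XG C6 γ s * XG C6 (pv γ) (sn γ τ s)` satisfies `IsS`; the two factors commute as `(γ, πγ) = 0`). (1) `(γ, δ) = -1 = (πγ, πδ)`, `(γ, πδ) = 0 = (πγ, δ)`: the commutator is
`x_{γ+δ}(± s t) x_{πγ+πδ}(± τ(s t))`, which is `X_{γ+δ}(ε s t)`, `ε = sg γ δ` (sign relation in RTF); the two factors commute with everything; `γ + δ` is not fixed: `(γ + δ, π(γ + δ)) = (γ, πγ) + (δ, πδ) = 0` (`(γ, πδ) = 0`). (2) `x_γ(s) x_β(t) x_γ(-s) = x_β(t) x_{γ+β}(..)`, then conjugate by `x_{πγ}(sn γ τ s)` (`(πγ, β) = (γ, β)` as `πβ = β`;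
`(πγ, γ + β) = -1`). (3), (4) commuting: `k_GXC`. (5) `X_γ(s + t)`, `X_γ(-s)`. -/
def KSC_stmt : Prop := ∀ (K : Type) [Field K] (τ : K ≃+* K), (∀ x, τ (τ x) = x) →
  (∀ γ δ, SR γ → SR δ → ip C6 γ δ = -1 → ip C6 γ (pv δ) = 0 → SR (γ + δ) ∧ ∃ ε : ℤ, (ε = 1 ∨ ε = -1) ∧ ∀ (s t : K) (g h : Lm C6 K ≃ₗ[K] Lm C6 K),
    IsS τ γ s g → IsS τ δ t h → IsS τ (γ + δ) ((ε : K) * s * t) (g * h * g⁻¹ * h⁻¹)) ∧
  (∀ γ β, SR γ → LR β → ip C6 γ β = -1 → SR (γ + β) ∧ LR (γ + pv γ + β) ∧ ∃ ε ε' : ℤ, (ε = 1 ∨ ε = -1) ∧ (ε' = 1 ∨ ε' = -1) ∧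
    ∀ (s t : K) (g : Lm C6 K ≃ₗ[K] Lm C6 K), τ t = t → IsS τ γ s g → ∃ g' : Lm C6 K ≃ₗ[K] Lm C6 K, IsS τ (γ + β) ((ε : K) * s * t) g' ∧
      g * XG C6 β t * g⁻¹ = XG C6 β t * g' * XG C6 (γ + pv γ + β) ((ε' : K) * (s * τ s) * t)) ∧
  (∀ γ β, SR γ → LR β → 0 ≤ ip C6 γ β → ∀ (s t : K) (g : Lm C6 K ≃ₗ[K] Lm C6 K), IsS τ γ s g → g * XG C6 β t = XG C6 β t * g) ∧
  (∀ γ δ, SR γ → SR δ → 0 ≤ ip C6 γ δ → 0 ≤ ip C6 γ (pv δ) → ∀ (s t : K) (g h : Lm C6 K ≃ₗ[K] Lm C6 K), IsS τ γ s g → IsS τ δ t h → g * h = h * g) ∧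
  ∀ γ, SR γ → (∀ (s t : K) (g h : Lm C6 K ≃ₗ[K] Lm C6 K), IsS τ γ s g → IsS τ γ t h → IsS τ γ (s + t) (g * h)) ∧
    (∀ (s : K) (g : Lm C6 K ≃ₗ[K] Lm C6 K), IsS τ γ s g → IsS τ γ (-s) g⁻¹) ∧ ∀ (s : K) (g h : Lm C6 K ≃ₗ[K] Lm C6 K), IsS τ γ s g → IsS τ γ s h → g = h

/-- **KWS** (medium). uses: KSC, SGR, SIG. The Weyl element. `n = x'_β(1) x'_{-β}(1) x'_β(1) ∈ H` (`ch6 (-β) = - ch6 β`, `u = c^ch(β)`: `n = x_β(u) x_{-β}(u⁻¹) x_β(u)`). `f_ACT` (as in GNR, `Pool/Agent/helper79/EXG/GNR.lean`, or TOR): `n E γ = ± u E(γ+β)` for `(γ, β) = -1`: `x_β(u) E γ = E γ + u ε E(γ+β)`; `x_{-β}(u⁻¹)` maps `E γ` to itself (`(γ, -β) = 1`) and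
`E(γ+β)` to `E(γ+β) + u⁻¹ ε' E γ`, `ε' = sg(-β, γ+β)`, `1 + ε ε' = 0`; so `E γ ↦ u ε E(γ+β)` (and `x_β(u)` fixes it). The same for `πγ` with the same kind of sign; `n ∈ GS τ` commutes with `σ` (SGR), so `n E(πγ) = sn γ n σ E γ = sn γ σ (± u E(γ+β))`. So `n X_γ(s) n⁻¹ = X_{γ+β}(± u s)` (conjugation: `g x_a(t) g⁻¹ = x_{g a}(t)`, `f_EXF` / `f_XAU`, `g = n ∈ GE`).
Then `X' = n X n⁻¹` or its inverse (KSC (5)) with `X = X_γ(r c^ch(γ)) ∈ H` (exists: SGR). -/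
def KWS_stmt : Prop := ∀ (K : Type) [Field K] (τ : K ≃+* K), (∀ x, τ (τ x) = x) → ∀ c : K, τ c = c → c ≠ 0 → ∀ H : Subgroup (Lm C6 K ≃ₗ[K] Lm C6 K),
  ∀ γ β, SR γ → LR β → ip C6 γ β = -1 → XP6 c β 1 ∈ H → XP6 c (-β) 1 ∈ H → ∀ r : K, RS τ c H γ r → RS τ c H (γ + β) r

/-- **KRG** (medium). uses: KSC, KWS, LST, SGR. (1) The short roots with the same grading `gr6` (8 roots each) are connected by steps `γ ↦ γ + β`, `β` long, `(γ, β) = -1`: at most two steps (`γ' - γ` is a long root with `(γ, γ' - γ) = -1`, or there is one in between; finite check over `RL`, LST). (2) Products: for gradings `d`, `e`, `d + e` of short roots there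
are `γ, δ` of grading `d`, `e` with `(γ, δ) = -1`, `(γ, πδ) = 0` (finite check; `gr6` is additive), KSC (1) and `ch6` additive: `X'_{γ+δ}(± r s)` is the commutator of elements of `H` (elements with `IsS` exist by SGR). Then (1). (3) sums and negatives: KSC (5). -/
def KRG_stmt : Prop := ∀ (K : Type) [Field K] (τ : K ≃+* K), (∀ x, τ (τ x) = x) → ∀ c : K, τ c = c → c ≠ 0 → ∀ H : Subgroup (Lm C6 K ≃ₗ[K] Lm C6 K),
  (∀ β, LR β → XP6 c β 1 ∈ H) → (∀ γ γ', SR γ → SR γ' → gr6 γ = gr6 γ' → ∀ r : K, RS τ c H γ r → RS τ c H γ' r) ∧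
  (∀ γ δ η, SR γ → SR δ → SR η → gr6 η = gr6 γ + gr6 δ → ∀ r s : K, RS τ c H γ r → RS τ c H δ s → RS τ c H η (r * s)) ∧
  ∀ γ, SR γ → ∀ r s : K, RS τ c H γ r → RS τ c H γ s → RS τ c H γ (r + s) ∧ RS τ c H γ (-r)

/-- **KMU** (short-medium). uses: KRG, LST. All short root elements. Gradings `d₁ = (0, 1)`, `d₂ = (-1, -1)`, `d₃ = (1, 0)` of `de3 i`, sum zero; the six gradings are `± d_i` (`-de3 i` is short of grading `-d_i`; finite check that every short root has one of the six gradings). `R_d` = the set of the `r` with `RS τ c H γ r`, `γ` of grading `d`. `R_{-d₃} ∋ 1 · 1` (`d₁ + d₂ = -d₃`). `M = {m | ∀ r ∈ R_{d₁}, m r ∈ R_{d₁}}`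
is a subring which contains `R_{d₃} R_{-d₃} ∋ t` (`d₁ + d₃ = -d₂`, `-d₂ + (-d₃) = d₁`), so `M = ⊤` and `R_{d₁} ∋ 1` gives `R_{d₁} = K`. In the same way `R_{d₂} = K`. Then `R_{-d₃} = K` (`d₁ + d₂`), `R_{-d₂} = K` (`d₁ + d₃`, `(s/t) · t`; `t ≠ 0` because `⊤ ≠ ⊥`-type argument: if `t = 0` every subring is `⊤`; then take `R_{-d₂}` from `R_{d₃} = R_{-d₁} R_{-d₂}` .. simply assume `t ≠ 0`),
`R_{-d₁} = K`, `R_{d₃} ⊇ R_{-d₁} R_{-d₂} = K`. -/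
def KMU_stmt : Prop := ∀ (K : Type) [Field K] (τ : K ≃+* K), (∀ x, τ (τ x) = x) → ∀ c : K, τ c = c → c ≠ 0 → ∀ H : Subgroup (Lm C6 K ≃ₗ[K] Lm C6 K),
  (∀ β, LR β → XP6 c β 1 ∈ H) → ∀ t : K, t ≠ 0 → (∀ A : Subring K, t ∈ A → A = ⊤) → RS τ c H (de3 0) 1 → RS τ c H (de3 1) 1 → RS τ c H (de3 2) t →
  ∀ γ, SR γ → ∀ r : K, RS τ c H γ r

/-- **KSQ** (short; fields). In a finite field `F` (`K0 τ`: use any finite field) an additive subgroup `A` which contains all `k s²`, `k ≠ 0` fixed, is everything: every `z/k` is a sum of two squares (`FiniteField.exists_root_sum_quadratic` in odd characteristic, `FiniteField.isSquare_of_char_two` in characteristic 2; as row F4G, `Pool/Agent/*/TRG/F4G.lean`). -/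
def KSQ_stmt : Prop := ∀ (F : Type) [Field F] [Finite F] (k : F), k ≠ 0 → ∀ A : AddSubgroup F, (∀ s : F, k * s ^ 2 ∈ A) → A = ⊤

/-- **KLG** (medium). uses: KSC, KSQ, SGR, LST, RTF. `GS τ ≤ H`. The generators of `GS τ`: a short root element `X_γ(s)` is `X'_γ(s c^(-ch γ)) ∈ H`. Long: `β` long; choose `γ` short, `u` long with `(γ, u) = -1`, `γ + πγ + u = β` (finite check over `RL`). KSC (2) with `t = c^ch(u)` (`XG u t = x'_u(1) ∈ H`): `g x_u(t) g⁻¹ = x_u(t) g' x_β(ε' s τ(s) t)`, `g, g' ∈ H`; so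
`x_β(ε' s τ(s) t) ∈ H` for all `s ∈ K`, in particular `x_β(ε' t s²) ∈ H` for fixed `s`. The fixed elements form a finite field `F` (`(τ : K →+* K).eqLocusField (RingHom.id K)`, see `K0` in `Pool/Agent/helper16/EXT/Spec3T.lean`), `A = {r ∈ F | x_β(r) ∈ H}` is an additive subgroup (`k_GXC`), so `A = F` (KSQ). A generator with `IsX (E β) r g` is `XG β r` (`g_XG`). -/
def KLG_stmt : Prop := ∀ (K : Type) [Field K] [Finite K] (τ : K ≃+* K), (∀ x, τ (τ x) = x) → ∀ c : K, τ c = c → c ≠ 0 → ∀ H : Subgroup (Lm C6 K ≃ₗ[K] Lm C6 K),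
  (∀ β, LR β → XP6 c β 1 ∈ H) → (∀ γ, SR γ → ∀ r : K, RS τ c H γ r) → GS τ ≤ H

/-- **KFA** (medium). uses: KXC, KSC. One short root element. `u` long, `γ` short, `(γ, u) = -1`, `λ = γ + πγ + u`, `μ` long with `(μ, λ) = -1`, `(μ, γ+u) = (μ, π(γ+u)) = 0`. `X = X_γ(s)`, `s = r c^ch(γ)`, `t = ± c^ch(u)`, `X x_u(t) X⁻¹ ∈ H`. KSC (2): it is `x_u(t) X' x_λ(l)`, `X' = X_{γ+u}(ε s t)`; `x_u(t) = x'_u(± 1) ∈ H`, so `A = X' x_λ(l) ∈ H`.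
`ω = x'_μ(1) ∈ H` commutes with `X'` (KSC (3)), `ω x_λ(l) ω⁻¹ = x_λ(l) x_{μ+λ}(l')`, `l' = ± l c^ch(μ)` (KXC / `k_GXC`); so `ω A ω⁻¹ A⁻¹ = X' x_λ(l) x_{μ+λ}(l') x_λ(-l) X'⁻¹ = x_{μ+λ}(l') ∈ H` (`(λ, μ+λ) = 1`; `(μ+λ, γ+u) = (λ, γ+u) = (γ,γ) + 2 (γ,u) + (πγ, γ) + (πγ,u) + (u,u) = 1`, so it commutes with `X'`).
`ω' = x'_{-μ}(1)`: `(-μ, μ+λ) = -1`: `ω' x_{μ+λ}(l') ω'⁻¹ = x_{μ+λ}(l') x_λ(± l)` (`c^ch(μ) c^ch(-μ) = 1`), so `x_λ(l) ∈ H`, `X' ∈ H`. `ε s t = ± r c^ch(γ+u)`: KSC (5) gives `RS τ c H (γ+u) r` (uniqueness, inverse). -/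
def KFA_stmt : Prop := ∀ (K : Type) [Field K] (τ : K ≃+* K), (∀ x, τ (τ x) = x) → ∀ c : K, τ c = c → c ≠ 0 → ∀ H : Subgroup (Lm C6 K ≃ₗ[K] Lm C6 K),
  (∀ β, LR β → XP6 c β 1 ∈ H) → ∀ γ u μ, SR γ → LR u → LR μ → ip C6 γ u = -1 → ip C6 μ (γ + pv γ + u) = -1 → ip C6 μ (γ + u) = 0 →
  ∀ (r e : K) (X : Lm C6 K ≃ₗ[K] Lm C6 K), (e = 1 ∨ e = -1) → IsS τ γ (r * c ^ (ch6 γ)) X → X * XP6 c u e * X⁻¹ ∈ H → RS τ c H (γ + u) r

/-- **KFI** (medium). uses: KXC, KSC, KFA. The fifth conjugate. `g = g₀ g₁ g₂`, `z = g x'_th(1) g⁻¹ ∈ H`. `w = wa3 i`: long, `(w, th) = -1`, `(w, γ_i) = 0`, `(w, γ_j) = 1` for `j ≠ i` (and the same with `πγ_j`), so `ω = x'_w(1) ∈ H` commutes with `g` (KSC (3)); `ω x'_th(1) ω⁻¹ = x'_th(1) x'_{th+w}(± 1)`. So `ω z ω⁻¹ = z · g x'_{th+w}(± 1) g⁻¹`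
(`g a g⁻¹ g b g⁻¹ = g a b g⁻¹`), and `g x'_u(± 1) g⁻¹ ∈ H`, `u = th + w`. `(γ_j, u) = 0` for `j ≠ i`, `-1` for `j = i`; the three `g_j` commute (KSC (4): `(γ_j, γ_k) ≥ 0`, `(γ_j, πγ_k) ≥ 0`); so it is `g_i x'_u(± 1) g_i⁻¹` (move `g_i` to the left; the others commute with `x_u`). KFA with `μ = th` (`λ = -sr 1`, `(th, λ) = -1`, `(th, γ_i + u) = 0`):
`RS (γ_i + u) = RS (de3 i)`. All products of explicit vectors: `decide +kernel`. -/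
def KFI_stmt : Prop := ∀ (K : Type) [Field K] (τ : K ≃+* K), (∀ x, τ (τ x) = x) → ∀ c : K, τ c = c → c ≠ 0 → ∀ H : Subgroup (Lm C6 K ≃ₗ[K] Lm C6 K),
  (∀ β, LR β → XP6 c β 1 ∈ H) → ∀ (r : Fin 3 → K) (g : Fin 3 → Lm C6 K ≃ₗ[K] Lm C6 K), (∀ i, IsS τ (ga3 i) (r i * c ^ (ch6 (ga3 i))) (g i)) →
  (g 0 * g 1 * g 2) * XP6 c th 1 * (g 0 * g 1 * g 2)⁻¹ ∈ H → ∀ i, RS τ c H (de3 i) (r i)

/-- **KFG** (short-medium). uses: KFI, KMU, KLG, KSC, SGR, KCJ. The fifth conjugate, assembled: `t` a generator of `Kˣ` (`IsCyclic`; a subring of a field which contains `t` contains all powers and `0`). `g = X'_{γ₀}(1) X'_{γ₁}(1) X'_{γ₂}(t)` (in `GS τ`: SGR). `k = g (x'_th(e) x_v(s')) g⁻¹` with `v` long and `(γ_i, v) ≥ 0` for all `i`, so `g` commutes with `x_v(s')` (KSC (3)) and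
`k = (g x'_th(e) g⁻¹) x_v(s')`. If `H ∋ k`, all `x'_β(1)` and `x_v(s')`, then `g x'_th(e) g⁻¹ ∈ H`, so `g x'_th(1) g⁻¹ ∈ H` (inverse), KFI, KMU, KLG. -/
def KFG_stmt : Prop := ∀ (K : Type) [Field K] [Finite K] (τ : K ≃+* K), (∀ x, τ (τ x) = x) → ∀ c : K, τ c = c → c ≠ 0 → ∃ g ∈ GS τ, ∀ v, LR v →
  (∀ i, 0 ≤ ip C6 (ga3 i) v) → ∀ (e s' : K), (e = 1 ∨ e = -1) → ∀ H : Subgroup (Lm C6 K ≃ₗ[K] Lm C6 K), (∀ β, LR β → XP6 c β 1 ∈ H) → XG C6 v s' ∈ H →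
  g * (XP6 c th e * XG C6 v s') * g⁻¹ ∈ H → GS τ ≤ H

/-! ## D. Type `-2` -/

/-- **KVA** (medium). `Y = x_th(1) x_{-th}(κ)`, `r` long, `(r, th) = -1`, `ε = sg th r`, `ε' = sg (-th) (r + th) = -ε` (`sg_self`, bilinearity; as GVA of EXG, `Pool/Agent/*/EXG/GVA.lean`). (1) `k_GXC`: `x_{-th}(κ) x_{r+th}(q) x_{-th}(κ)⁻¹ = x_{r+th}(q) x_r(ε' κ q)`, it commutes with `x_r`; `x_th(1) x_r(p) x_th(1)⁻¹ = x_r(p) x_{r+th}(ε p)`, it commutes with `x_{r+th}`; `x_r`, `x_{r+th}` commute.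
So `Y x_r(p) x_{r+th}(q) Y⁻¹ = x_r(p - ε κ q) x_{r+th}(q + ε (p - ε κ q))`. (2) Let `M` be the additive group of the `(p, q)` with `x_r(p) x_{r+th}(q) ∈ H`, `D (p,q) = (-ε κ q, ε p - κ q)` maps `M` to `M` (if `Y ∈ H`), `D² + κ D + κ = 0`, so `κ M ⊆ M`, `A M ⊆ M` for the subring `A` generated by `κ`. `(s, 0) ∈ M` gives `D (s,0) = (0, ε s)`; `(0, s) ∈ M` gives
`D (0,s) + κ (0,s) = (-ε κ s, 0)`. `A` is a finite subring of a field, so it contains `κ⁻¹` (a power of `κ`) and `s⁻¹`; so `(1, 0), (0, 1) ∈ M` and `A × A ⊆ M`. -/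
def KVA_stmt : Prop := ∀ (K : Type) [Field K] (κ : K), κ ≠ 0 → ∀ r, LR r → ip C6 r th = -1 →
  (∃ ε : ℤ, (ε = 1 ∨ ε = -1) ∧ ∀ p q : K, (XG C6 th 1 * XG C6 (-th) κ) * (XG C6 r p * XG C6 (r + th) q) * (XG C6 th 1 * XG C6 (-th) κ)⁻¹ =
    XG C6 r (p - (ε : K) * κ * q) * XG C6 (r + th) (q + (ε : K) * (p - (ε : K) * κ * q))) ∧
  (Finite K → ∀ H : Subgroup (Lm C6 K ≃ₗ[K] Lm C6 K), XG C6 th 1 * XG C6 (-th) κ ∈ H → ∀ s ∈ Subring.closure {κ}, s ≠ 0 →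
    (XG C6 r s ∈ H ∨ XG C6 (r + th) s ∈ H) → ∀ t ∈ Subring.closure {κ}, XG C6 r t ∈ H ∧ XG C6 (r + th) t ∈ H)

/-- **KYB** (short-medium). uses: KVA. `P_k = x_{th + c_k}(1) x_{-sr 1}(1)` is a commutator `Y h Y⁻¹ h⁻¹`, `h ∈ GS τ`. As GYB of EXG (`Pool/Agent/helper29/EXG/GYB.lean`) with explicit parameters: `c = -sr 1`, `d = c_k`, `(c, d) = 0`. KVA (1) for `c`: `h₁ = x_c(p) x_{c+th}(q)` with `Y h₁ Y⁻¹ = x_c(1) h₁`: `-ε κ q = 1`, `ε (p - ε κ q) = 0`, so `p = -1`, `q = -ε/κ`. For `d`: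
`h₂ = x_d(p')` with `Y h₂ Y⁻¹ = x_d(p') x_{d+th}(ε' p')`, `p' = ε'`: `Y h₂ Y⁻¹ h₂⁻¹ = x_{d+th}(1)` (`x_d`, `x_{d+th}` commute). `Y h₁ h₂ Y⁻¹ (h₁ h₂)⁻¹ = x_c(1) h₁ x_{d+th}(1) h₁⁻¹`; `x_{c+th}(q)` commutes with `x_{d+th}(1)` (`(c+th, d+th) = 0`), `(c, d+th) = -1`, `h₁ x_{d+th}(1) h₁⁻¹ = x_c(-1) x_{d+th}(1) x_c(1)`. So the commutator is
`x_{d+th}(1) x_c(1)`. All parameters are fixed by `τ` (`κ` fixed), so `h = h₁ h₂ ∈ GS τ` (SGR). -/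
def KYB_stmt : Prop := ∀ (K : Type) [Field K] (τ : K ≃+* K), (∀ x, τ (τ x) = x) → ∀ κ : K, τ κ = κ → κ ≠ 0 → ∀ k : Fin 3, ∃ h ∈ GS τ,
  (XG C6 th 1 * XG C6 (-th) κ) * h * (XG C6 th 1 * XG C6 (-th) κ)⁻¹ * h⁻¹ = XG C6 (th + cc3 k) 1 * XG C6 (-sr 1) 1

/-- **KPP** (medium). uses: KVA. `P = P_k`, `c = -sr 1`, `d = c_k`, `e = th + c + d = bt3 k`. KVA (1): `Y P Y⁻¹ = (x_d(-ε κ) x_{d+th}(1 - κ)) (x_c(1) x_{c+th}(ε₂))` (`ε = ε_d`, `ε₂ = ε_c`). In the group generated by `x_c, x_{c+th}, x_d, x_{d+th}` the commutators `[x_{d+th}(s), x_c(t)] = x_e(± s t)`, `[x_d(s), x_{c+th}(t)] = x_e(..)` are central (`(e, ·) ≥ 0`), all other pairs commute (`(c, d) = 0 = (c+th, d+th)`).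
`[P, Y P Y⁻¹]`, `P = x_{d+th}(1) x_c(1)`: the pairs `x_{d+th}(1)` with `x_c(1)`: `x_e(δ)`, `x_c(1)` with `x_{d+th}(1-κ)`: `x_e(-δ(1-κ))`; product `x_e(δ κ)`, `δ = ± 1`. So `x_e(κ) ∈ H` (inverse). -/
def KPP_stmt : Prop := ∀ (K : Type) [Field K] (κ : K), κ ≠ 0 → ∀ H : Subgroup (Lm C6 K ≃ₗ[K] Lm C6 K), XG C6 th 1 * XG C6 (-th) κ ∈ H →
  ∀ k : Fin 3, XG C6 (th + cc3 k) 1 * XG C6 (-sr 1) 1 ∈ H → XG C6 (bt3 k) κ ∈ H

/-- **KD2** (medium). uses: KVA, KPP, KGN, KXC. All long root elements `x_β(1)` and `x_{-th}(κ)`. Write `c_(e) = (-th + e₀ β₀ + e₁ β₁ + e₂ β₂)/2`, `β_k = bt3 k`, `e_k = ± 1`: eight long roots with `(c, th) = -1`: `c_(ppp) = -sr 1`, `cc3 k` has `+` at `k` only. `A` = subring generated by `κ`; a root `r` is called strong if `x_r(s) ∈ H` for all `s ∈ A`. (1) `x_{β_k}(κ) ∈ H` (KPP). (2) `[x_{β₁}(κ), P₀]`, `P₀ = x_{th + cc3 0}(1) x_{-sr 1}(1)`: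
`(β₁, th + cc3 0) = -1`, `(β₁, -sr 1) = 1`, the new root `th + cc3 0 + β₁ = th + c_(ppn)` has product `0` with `-sr 1`: so `x_{th + c_(ppn)}(± κ) ∈ H`, KVA: `c_(ppn)` and `th + c_(ppn)` are strong. (3) `[x_{β₂}(κ), x_{c_(ppn)}(1)] = x_{c_(ppp)}(± κ)`: KVA: `-sr 1`, `th - sr 1` are strong. (4) So `x_{th + cc3 k}(1) = P_k x_{-sr 1}(-1) ∈ H`, KVA: `cc3 k`, `th + cc3 k` are strong.
(5) `(th + cc3 i, cc3 j) = -1` for `i ≠ j`, sum `-β_k` (`{i,j,k} = {0,1,2}`): `-β_k` is strong (commutators). (6) From `c_(ppp)` by adding `-β_k`: all eight `c_(e)` are strong, so (KVA) all `th + c_(e)`. (7) `(th + c_(e)) + c_(e')` for `e, e'` which differ in two places and have the common sign `+` at `k` is `β_k`: strong. (8) `c_(e) + c_(-e) = -th`, `(th + c_(e)) + (th + c_(-e)) = th`: `± th` strong.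
The eight roots `lt7 (sx8 j)` are `± sr 1` (`= -c_(ppp) = th + c_(nnn)`, `c_(ppp)`), `± β_k`. KGN with `c = 1` (`XP6 1 α t = XG C6 α t`, KXC). -/
def KD2_stmt : Prop := ∀ (K : Type) [Field K] [Finite K] (κ : K), κ ≠ 0 → ∀ H : Subgroup (Lm C6 K ≃ₗ[K] Lm C6 K), XG C6 th 1 * XG C6 (-th) κ ∈ H →
  (∀ k : Fin 3, XG C6 (th + cc3 k) 1 * XG C6 (-sr 1) 1 ∈ H) → (∀ β, LR β → XP6 1 β (1 : K) ∈ H) ∧ XG C6 (-th) κ ∈ H

/-! ## E. Assembly -/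

/-- **K50** (medium). uses: KPR, KCJ, KRD, KSN, KGN, KXC, KFG, and `KC0 : ∀ j, Cgr C6 Kc0 [] (lt7 (sx8 j))` (import `Pool.Agent.helper17.GFG.Cert`). Type `0`. KPR: `c`. For an orthogonal pair `(u, v)` of long roots with `ch6 u + ch6 v` odd: `CJ τ y (x'_u(e) x'_v(e'))` (KCJ (1); `x_u(e c^ch u) = XP6 c u e`). For `P = [(u, true), (v, true)]` the list `l = [(u, e), (v, e')]` satisfies `OK6 P l`, `pq6 c l` is this element.
For `P = [(u, true), (m, true), (v, true)]` with `w = m - u`, `(w, u) = -1`, `(w, v) = 1`: conjugate by `x'_w(1)` (KCJ (2)): `x'_w(1) x'_u(e) x'_w(1)⁻¹ = x'_u(e) x'_m(± e)`, `x'_w` commutes with `x'_v`: `l = [(u, e), (m, ± e), (v, e')]`. So there are `k 0, .., k 3 ∈ GS τ` with `CJ`, one for each of the four products of `Kc0`, and `k 4 = g (x'_th(e) x'_v(e')) g⁻¹`, `v = lt7 6 = ![1,0,1,1,1,1]`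
(`(th, v) = 0`, `ch6 th + ch6 v = 1`, `(ga3 i, v) ≥ 0`), `g` from KFG. KRD: if `H` contains all `k i`: KSN, KC0, KGN: all `x'_β(1) ∈ H`, also `x_v(e' c^ch v) = x'_v(± 1) ∈ H`; KFG: `GS τ ≤ H`. (`XP6 c v e' = XG C6 v (e' * c^ch6 v)` by definition.) -/
def K50_stmt : Prop := ∀ (K : Type) [Field K] [Finite K] (τ : K ≃+* K), (∀ x, τ (τ x) = x) → ∀ (a b : Lm C6 K) (y : GF τ), TpS τ a b 0 → Y7 τ a b y →
  ∃ g : Fin 5 → GF τ, Subgroup.closure (Set.range fun i => g i * y * (g i)⁻¹) = ⊤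

/-- **K51** (short-medium). uses: KPM, KCJ, KRD, KSN, KGN, KXC, KFG, `KC1`. Type `-1`, with `c = 1` (`XP6 1 α t = XG C6 α t`). The four pairs of `Kc1` (`(u, v) = -1`: `decide +kernel`) give `k 0, .., k 3`; `k 4 = g (x_th(1) x_v(1)) g⁻¹` with `v = lt7 13 = -sr 1` (`(th, v) = -1`, `(ga3 i, v) = 1`). As K50. -/
def K51_stmt : Prop := ∀ (K : Type) [Field K] [Finite K] (τ : K ≃+* K), (∀ x, τ (τ x) = x) → ∀ (a b : Lm C6 K) (y : GF τ), TpS τ a b (-1) → Y7 τ a b y →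
  ∃ g : Fin 5 → GF τ, Subgroup.closure (Set.range fun i => g i * y * (g i)⁻¹) = ⊤

/-- **K52** (short-medium). uses: PAR, KCJ, KRD, KYB, KD2, KFG, SGR. Type `-2`. PAR (`β = th`, `δ = -th`): `g a = E th`, `g b = κ E(-th)`: `CJ τ y Y`, `Y = x_th(1) x_{-th}(κ)`. `k 0 = Y`; KYB: `h_k`, `Y h_k Y⁻¹ h_k⁻¹ = P_k`; `k (1+k) = h_k Y h_k⁻¹`, so `P_k = Y (h_k Y h_k⁻¹)⁻¹`. `k 4 = g Y g⁻¹` (KFG with `c = 1`, `v = -th`, `(ga3 i, -th) = 1`, `s' = κ`, `XP6 1 th 1 = XG C6 th 1`).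
KRD: `H ∋ k i`: KD2: all `x_β(1) ∈ H` and `x_{-th}(κ) ∈ H`; KFG. -/
def K52_stmt : Prop := ∀ (K : Type) [Field K] [Finite K] (τ : K ≃+* K), (∀ x, τ (τ x) = x) → ∀ (a b : Lm C6 K) (y : GF τ), TpS τ a b (-2) → Y7 τ a b y →
  ∃ g : Fin 5 → GF τ, Subgroup.closure (Set.range fun i => g i * y * (g i)⁻¹) = ⊤

/-- **KFF** (short). uses: K50, K51, K52, YCF, FXF. The theorem. YCF: `t`, `a`, `b`, `m`, `Y7 τ a b (x t * t⁻¹)`; K50 / K51 / K52; `k_GGA` (the centre is trivial: FXF, second part; `GF τ` is finite: permutations of a finite set, see `GF_fin` in `Pool/Agent/helper16/EXT/Spec3T.lean`). -/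
def KFF_stmt : Prop := ∀ (K : Type) [Field K] [Finite K] (τ : K ≃+* K), (∀ x, τ (τ x) = x) → ∀ x : MulAut (GF τ), RAF τ x → x ≠ 1 →
  (∃ h : Fin 10 → GF τ, (MulAut.conj : GF τ →* MulAut (GF τ)).range ≤ Subgroup.closure (Set.range fun i => MulAut.conj (h i) * x * (MulAut.conj (h i))⁻¹)) ∧
  ∀ r : ℕ, r.Prime → r ∣ Nat.card (GF τ) → 10 ∈ Pool.Agent.GS.CSet r x

end Pool.Agent.EXT
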