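import Pool.Agent.helper17.EXT.AllT
import Pool.Agent.helper17.GFG.Spec
import Pool.Agent.helper17.GFG.Cert
import Pool.Agent.helper32.GFG.KXC
import Pool.Agent.helper32.GFG.KSN
import Pool.Agent.helper32.GFG.KGN
import Pool.Agent.helper32.GFG.KPR
import Pool.Agent.helper69.GFG.KPM
import Pool.Agent.helper32.GFG.KCJ
import Pool.Agent.helper58.GFG.KRD
import Pool.Agent.helper16.GFG.KSC
import Pool.Agent.helper16.GFG.KWS
import Pool.Agent.helper16.GFG.KRG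
import Pool.Agent.helper2.GFG.KMU
import Pool.Agent.helper32.GFG.KSQ
import Pool.Agent.helper16.GFG.KLG
import Pool.Agent.helper16.GFG.KFA
import Pool.Agent.helper51.GFG.KFI
import Pool.Agent.helper38.GFG.KFG
import Pool.Agent.helper60.GFG.KVA
import Pool.Agent.helper69.GFG.KYB
import Pool.Agent.helper58.GFG.KPP
import Pool.Agent.helper79.GFG.KD2
import Pool.Agent.helper16.GFG.K50
import Pool.Agent.helper20.GFG.K51
import Pool.Agent.helper32.GFG.K52
import Pool.Agent.helper20.GFG.KFF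

/-!
# Project GFG (MP_561ff4_al): assembly of all rows
-/

set_option autoImplicit false

open Finset

namespace Pool.Agent.EXT

open Pool.Agent.EXC

theorem f_KXC : KXC_stmt := KXC
theorem f_KSN : KSN_stmt := KSN f_KXC
theorem f_KGN : KGN_stmt := KGN f_KXC f_LST
theorem f_KPR : KPR_stmt := KPR f_PAR f_WST f_WPS f_TOR f_LST f_RTF
theorem f_KPM : KPM_stmt := KPM f_PAR f_TOR f_LST
theorem f_KCJ : KCJ_stmt := KCJ f_GFX f_ESF f_TFS f_SGR
theorem f_KRD : KRD_stmt := KRD f_GFX f_SGR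
theorem f_KSC : KSC_stmt := KSC f_RTF f_SGR
theorem f_KWS : KWS_stmt := KWS f_KSC f_SGR f_RTF
theorem f_KRG : KRG_stmt := KRG f_KSC f_KWS f_LST f_SGR
theorem f_KMU : KMU_stmt := KMU f_KRG f_LST
theorem f_KSQ : KSQ_stmt := KSQ
theorem f_KLG : KLG_stmt := KLG f_KSC f_KSQ f_SGR f_LST
theorem f_KFA : KFA_stmt := KFA f_KXC f_KSC f_RTF
theorem f_KFI : KFI_stmt := KFI f_KXC f_KSC f_KFA
theorem f_KFG : KFG_stmt := KFG f_KFI f_KMU f_KLG f_KSC f_SGR
theorem f_KVA : KVA_stmt := KVA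
theorem f_KYB : KYB_stmt := KYB f_KVA f_SGR
theorem f_KPP : KPP_stmt := KPP f_KVA
theorem f_KD2 : KD2_stmt := KD2 f_KVA f_KPP f_KGN f_KXC
theorem f_K50 : K50_stmt := K50 f_KPR f_KCJ f_KRD f_KSN f_KGN f_KXC f_KFG
theorem f_K51 : K51_stmt := K51 f_KPM f_KCJ f_KRD f_KSN f_KGN f_KXC f_KFG
theorem f_K52 : K52_stmt := K52 f_PAR f_KCJ f_KRD f_KYB f_KD2 f_KFG f_KXC f_SGR
theorem f_KFF : KFF_stmt := KFF f_K50 f_K51 f_K52 f_YCF f_FXF

end Pool.Agent.EXT

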