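import Pool.Agent.helper32.EXT.Spec7
import Pool.Agent.helper16.EXG.Spec

/-!
# Project GFG (MP_561ff4_al): five conjugates of `x(t) t⁻¹` generate `F₄(q)`, `²E₆(q)`. Definitions
-/

set_option autoImplicit false

open Finset

namespace Pool.Agent.EXT

open Pool.Agent.EXC

/-- a character on the root lattice -/
def ch6 (v : Fin 6 → ℤ) : ℤ := v 2 - v 0

section
variable {K : Type} [Field K]

/-- the scaled root element `x'_α(t) = x_α(t c^ch(α))` -/
noncomputable def XP6 (c : K) (α : Fin 6 → ℤ) (t : K) : Lm C6 K ≃ₗ[K] Lm C6 K := XG C6 α (t * c ^ (ch6 α))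

/-- products of scaled root elements -/
noncomputable def pq6 (c : K) (l : List ((Fin 6 → ℤ) × K)) : Lm C6 K ≃ₗ[K] Lm C6 K := (l.map fun p => XP6 c p.1 p.2).prod

/-- `l` is a list of parameters for the product `P`: the entries `true` have the parameter `1` or `-1` -/
def OK6 (P : List ((Fin 6 → ℤ) × Bool)) (l : List ((Fin 6 → ℤ) × K)) : Prop :=
  List.Forall₂ (fun p q => q.1 = p.1 ∧ (p.2 = true → q.2 = 1 ∨ q.2 = -1)) P l

variable (τ : K ≃+* K)

/-- the linear map `k` induces on `LT τ` a conjugate of `y` -/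
def CJ (y : GF τ) (k : Lm C6 K ≃ₗ[K] Lm C6 K) : Prop :=
  ∃ f : GF τ, ∀ v : LT τ, (((f * y * f⁻¹ : GF τ) : Equiv.Perm (LT τ)) v : Lm C6 K) = k v

/-- `H` contains the scaled short root element `X'_γ(r)` -/
def RS (c : K) (H : Subgroup (Lm C6 K ≃ₗ[K] Lm C6 K)) (γ : Fin 6 → ℤ) (r : K) : Prop :=
  ∀ X : Lm C6 K ≃ₗ[K] Lm C6 K, IsS τ γ (r * c ^ (ch6 γ)) X → X ∈ H

end

/-- the grading of the roots: zero on the long roots, six values on the short roots -/
def gr6 (v : Fin 6 → ℤ) : ℤ × ℤ := (v 0 - v 5, v 2 - v 4)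

/-- the four simple roots of the `D₄` of the long roots and their negatives -/
def sx8 : Fin 8 → Fin 24 := ![1, 13, 0, 12, 3, 15, 6, 18]

/-- the products of the certificate for the type `0` -/
def Kc0 : List (List ((Fin 6 → ℤ) × Bool)) :=
  [[(lt7 15, true), (lt7 0, true)], [(lt7 9, true), (lt7 12, true), (lt7 1, true)], [(lt7 13, true), (lt7 5, true)], [(lt7 15, true), (lt7 1, true), (lt7 18, true)]]

/-- the products of the certificate for the type `-1` -/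
def Kc1 : List (List ((Fin 6 → ℤ) × Bool)) :=
  [[(lt7 6, true), (lt7 1, true)], [(lt7 10, true), (lt7 17, true)], [(lt7 11, true), (lt7 19, true)], [(lt7 15, true), (lt7 14, true)]]

/-- the short roots `γ₁, γ₂, γ₃` -/
def ga3 : Fin 3 → Fin 6 → ℤ := ![![0, -1, 0, -1, -1, 0], ![-1, -1, -1, -1, 0, 0], ![0, -1, -1, -1, -1, -1]]

/-- the long roots `w₁, w₂, w₃` -/
def wa3 : Fin 3 → Fin 6 → ℤ := ![![-1, -1, -1, -1, -1, -1], ![0, -1, -1, -1, -1, 0], ![0, -1, 0, -1, 0, 0]]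

/-- the short roots `δ_i = th + w_i + γ_i` -/
def de3 : Fin 3 → Fin 6 → ℤ := ![![0, 0, 1, 1, 0, 0], ![0, 0, 0, 1, 1, 1], ![1, 0, 1, 1, 1, 0]]

/-- the three long roots orthogonal to `th` -/
def bt3 : Fin 3 → Fin 6 → ℤ := ![![1, 0, 1, 1, 1, 1], ![0, 0, 0, 1, 0, 0], ![0, 0, 1, 1, 1, 0]]

/-- the long roots `c_k = -sr 1 - β_i - β_j`, `{i, j, k} = {0, 1, 2}` -/
def cc3 : Fin 3 → Fin 6 → ℤ := ![![0, -1, -1, -2, -1, 0], ![-1, -1, -2, -2, -2, -1], ![-1, -1, -1, -2, -1, -1]]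

end Pool.Agent.EXT
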